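import Pool.Agent.H59.PG.Stmts

/-!
# Row DET: positional determinacy for lists
-/

set_option autoImplicit false

namespace Pool.PG

theorem det_row (h1 : DTAStmt) : DETStmt := by
  intro g hg
  obtain ⟨W, σ, hs⟩ := h1 ℕ (own g) (pri g) (fun v w => w ∈ suc g v) (Finset.range g.length) (by
    intro v hv
    have hv' := Finset.mem_range.1 hv
    obtain ⟨h2, h3⟩ := hg v hv'
    obtain ⟨w, hw⟩ := List.exists_mem_of_ne_nil _ h2
    exact ⟨w, Finset.mem_range.2 (h3 w hw), hw⟩)
  refine ⟨W, σ, ⟨?_, ?_, ?_, ?_⟩⟩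
  · intro v hv
    exact (hs.mem v (Finset.mem_range.2 hv)).2
  · intro v hv
    exact hs.stay v (Finset.mem_range.2 hv)
  · intro v hv h2 w hw
    exact hs.trap v (Finset.mem_range.2 hv) h2 w (Finset.mem_range.2 ((hg v hv).2 w hw)) hw
  · intro v hv x hx h2
    have h3 : ∀ n, x n < g.length := by
      intro n
      induction n with
      | zero => rw [hx.1]; exact hv
      | succ n ih => exact (hg (x n) ih).2 _ (hx.2 n)
    exact hs.won v (Finset.mem_range.2 hv) x hx.1
      (fun n => ⟨Finset.mem_range.2 (h3 n), hx.2 n⟩) h2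

end Pool.PG
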